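import Pool.Agent.BEN.StmtsA

/-!
# NLJ of the squad BEN (problem MP_be01ff_an)

The nonlinear problem for jets.
-/

set_option autoImplicit false

namespace Pool.Agent.BEN.H69

open Set Filter Topology MeasureTheory
open Pool.Agent.BE01 Pool.Agent.BEF Pool.Agent.BEN

theorem cu_sub {J : Type} [NormedAddCommGroup J] [NormedSpace ℝ J] (A : Jax J) {t0 : ℝ}
    {f g : ℝ → J} (hf : A.Cu t0 f) (hg : A.Cu t0 g) : A.Cu t0 (fun t => f t - g t) := by
  refine A.congr t0 _ _ (A.add t0 _ _ hf (A.smul t0 (-1) _ hg)) ?_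
  intro t _
  rw [neg_one_smul, sub_eq_add_neg]

theorem choose_t0 {c1 C0 b M k e : ℝ} {n : ℕ} (he : 0 < e)
    (hlim : c1 * b ^ n * (C0 * (1 / (k - 1))) < 1 / 2) (t1 : ℝ) :
    ∃ t0 ≥ t1, c1 * (b + M * t0 ^ (-e)) ^ n * (C0 * (1 / (k - 1) + 1 / t0)) < 1 / 2 := by
  have h1 : Tendsto (fun s : ℝ => s ^ (-e)) atTop (𝓝 0) := tendsto_rpow_neg_atTop he
  have h2 : Tendsto (fun s : ℝ => 1 / s) atTop (𝓝 0) := by
    simpa using tendsto_inv_atTop_zero (𝕜 := ℝ)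
  have h3 : Tendsto (fun s : ℝ => c1 * (b + M * s ^ (-e)) ^ n *
      (C0 * (1 / (k - 1) + 1 / s))) atTop
      (𝓝 (c1 * (b + M * 0) ^ n * (C0 * (1 / (k - 1) + 0)))) :=
    (((h1.const_mul M).const_add b).pow n |>.const_mul c1).mul
      ((h2.const_add (1 / (k - 1))).const_mul C0)
  rw [mul_zero, add_zero, add_zero] at h3
  have h4 := (h3.eventually (gt_mem_nhds hlim)).and (eventually_ge_atTop t1)
  obtain ⟨t0, h5, h6⟩ := h4.exists
  exact ⟨t0, h6, h5⟩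

/-- NLJ. -/
theorem nlj (poj : PojStmt) (fxj : FxjStmt) : NljStmt := by
  intro J _ _ _ A C0 K p a k t1 b N1 w r hK hC0 hp ha hk ht1 hb hw hr hwb hrb hcond
  have hp' : (1 : ℝ) ≤ p := by exact_mod_cast hp
  have hp2 : (0 : ℝ) < 2 * (p : ℝ) := by linarith
  have hhalf : 1 / (2 * (p : ℝ)) ≤ 1 / 2 := by
    rw [div_le_div_iff₀ hp2 (by norm_num)]
    linarith
  obtain ⟨e, he⟩ : ∃ e : ℝ, e = k - 1 - 1 / (2 * (p : ℝ)) := ⟨_, rfl⟩
  have he0 : 0 < e := by linarith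
  obtain ⟨N0, hN0⟩ : ∃ N0 : ℝ, N0 = 2 * |N1| + 1 := ⟨_, rfl⟩
  have hN1 : 0 ≤ |N1| := abs_nonneg N1
  have hN00 : 0 < N0 := by linarith
  have hnm : 0 < A.nmul := lt_of_lt_of_le one_pos A.nmul_pos
  obtain ⟨c1, hc1⟩ : ∃ c1 : ℝ, c1 = a * ((2 * p + 1) * A.nmul ^ (2 * p)) := ⟨_, rfl⟩
  have hc10 : 0 < c1 := by
    rw [hc1]
    positivity
  have hlim : c1 * b ^ (2 * p) * (C0 * (1 / (k - 1))) < 1 / 2 := by
    have h1 : c1 * b ^ (2 * p) * (C0 * (1 / (k - 1))) =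
        (a * (2 * (2 * p + 1) * C0 * A.nmul ^ (2 * p)) * b ^ (2 * p)) / (2 * (k - 1)) := by
      rw [hc1]
      field_simp
    rw [h1, div_lt_div_iff₀ (by linarith) (by norm_num)]
    linarith
  obtain ⟨t0, ht01, hq⟩ := choose_t0 (M := 2 * C0 * N0) he0 hlim t1
  have ht0 : 1 ≤ t0 := ht1.trans ht01
  have ht00 : 0 < t0 := by linarith
  obtain ⟨η, hη⟩ : ∃ η : ℝ, η = 2 * C0 * N0 * t0 ^ (-e) := ⟨_, rfl⟩
  have hη0 : 0 ≤ η := by
    rw [hη]
    have := Real.rpow_nonneg ht00.le (-e)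
    positivity
  obtain ⟨κ, hκ⟩ : ∃ κ : ℝ, κ = C0 * (1 / (k - 1) + 1 / t0) := ⟨_, rfl⟩
  have hk1 : 0 < k - 1 := by linarith
  have hκ0 : 0 ≤ κ := by
    rw [hκ]
    positivity
  have hκ2 : κ ≤ 2 * C0 := by
    have h1 : 1 / (k - 1) ≤ 1 := by
      rw [div_le_one hk1]
      linarith
    have h2 : 1 / t0 ≤ 1 := by
      rw [div_le_one ht00]
      exact ht0
    rw [hκ]
    nlinarith
  obtain ⟨q, hqd⟩ : ∃ q : ℝ, q = c1 * (b + η) ^ (2 * p) * κ := ⟨_, rfl⟩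
  rw [← hη, ← hκ, ← hqd] at hq
  have hq0 : 0 ≤ q := by
    rw [hqd]
    positivity
  have hw0 : A.Cu t0 w := A.mono t1 t0 w ht01 hw
  have hr0 : A.Cu t0 r := A.mono t1 t0 r ht01 hr
  -- bounds of `K`
  have hKb : ∀ (f : ℝ → J) (N : ℝ), A.Cu t0 f → (∀ t > t0, ‖f t‖ ≤ N * t ^ (-k)) →
      A.Cu t0 (K f) ∧ ∀ t > t0, ‖K f t‖ ≤ κ * N * t ^ (1 - k) := by
    intro f N hf hfb
    have h := hK.cu t0 k N f ht0 (by linarith) hf hfb
    rw [← hκ] at h
    exact h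
  have hKη : ∀ (f : ℝ → J), A.Cu t0 f → (∀ t > t0, ‖f t‖ ≤ N0 * t ^ (-k)) →
      ∀ t > t0, ‖K f t‖ ≤ η * t ^ (-(1 / (2 * (p : ℝ)))) := by
    intro f hf hfb t ht
    have htp : 0 < t := ht00.trans ht
    refine ((hKb f N0 hf hfb).2 t ht).trans ?_
    have h1 : t ^ (1 - k) = t ^ (-(1 / (2 * (p : ℝ)))) * t ^ (-e) := by
      rw [← Real.rpow_add htp]
      congr 1
      rw [he]
      ring
    have h2 : t ^ (-e) ≤ t0 ^ (-e) :=
      Real.rpow_le_rpow_of_nonpos ht00 ht.le (by linarith)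
    have h3 : 0 ≤ t ^ (-(1 / (2 * (p : ℝ)))) := Real.rpow_nonneg htp.le _
    have h4 : 0 ≤ t ^ (-e) := Real.rpow_nonneg htp.le _
    rw [h1, hη]
    calc κ * N0 * (t ^ (-(1 / (2 * (p : ℝ)))) * t ^ (-e))
        ≤ 2 * C0 * N0 * (t ^ (-(1 / (2 * (p : ℝ)))) * t0 ^ (-e)) := by
          refine mul_le_mul (mul_le_mul_of_nonneg_right hκ2 hN00.le)
            (mul_le_mul_of_nonneg_left h2 h3) (mul_nonneg h3 h4) (by positivity)
      _ = 2 * C0 * N0 * t0 ^ (-e) * t ^ (-(1 / (2 * (p : ℝ)))) := by ring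
  obtain ⟨Θ, hΘ⟩ : ∃ Θ : (ℝ → J) → ℝ → J, Θ = fun f t =>
      a • (pj A (2 * p) (w t + K f t) - pj A (2 * p) (w t)) + r t := ⟨_, rfl⟩
  have hΘt : ∀ f t, Θ f t = a • (pj A (2 * p) (w t + K f t) - pj A (2 * p) (w t)) + r t :=
    fun f t => by rw [hΘ]
  -- the contraction estimate
  have hdiff : ∀ (f g : ℝ → J) (N : ℝ), 0 ≤ N → A.Cu t0 f →
      (∀ t > t0, ‖f t‖ ≤ N0 * t ^ (-k)) → A.Cu t0 g → (∀ t > t0, ‖g t‖ ≤ N0 * t ^ (-k)) →
      (∀ t > t0, ‖f t - g t‖ ≤ N * t ^ (-k)) →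
      ∀ t > t0, ‖Θ f t - Θ g t‖ ≤ q * N * t ^ (-k) := by
    intro f g N hN hf hfb hg hgb hfg t ht
    have htp : 0 < t := ht00.trans ht
    have h1 : K f t - K g t = K (fun r => f r - g r) t :=
      (hK.sub t0 k N0 f g ht0 (by linarith) hf hg hfb hgb t ht).symm
    have h2 := (hKb (fun r => f r - g r) N (cu_sub A hf hg) hfg).2 t ht
    rw [← h1] at h2
    obtain ⟨s, hs⟩ : ∃ s : ℝ, s = t ^ (-(1 / (2 * (p : ℝ)))) := ⟨_, rfl⟩
    have hs0 : 0 ≤ s := by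
      rw [hs]
      exact Real.rpow_nonneg htp.le _
    have hw1 : ‖w t‖ ≤ b * s := by
      rw [hs]
      exact hwb t (lt_of_le_of_lt ht01 ht)
    have hf1 : ‖w t + K f t‖ ≤ (b + η) * s := by
      refine (norm_add_le _ _).trans ?_
      have := hKη f hf hfb t ht
      rw [← hs] at this
      rw [add_mul]
      exact add_le_add hw1 this
    have hg1 : ‖w t + K g t‖ ≤ (b + η) * s := by
      refine (norm_add_le _ _).trans ?_
      have := hKη g hg hgb t ht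
      rw [← hs] at this
      rw [add_mul]
      exact add_le_add hw1 this
    have h3 := ((poj J A (2 * p)).1 ((b + η) * s) (w t + K f t) (w t + K g t) hf1 hg1).2
    have h4 : (w t + K f t) - (w t + K g t) = K f t - K g t := by abel
    rw [h4] at h3
    have h5 : Θ f t - Θ g t = a • (pj A (2 * p) (w t + K f t) - pj A (2 * p) (w t + K g t)) := by
      rw [hΘt, hΘt, add_sub_add_right_eq_sub, ← smul_sub]
      congr 1
      abel
    rw [h5, norm_smul, Real.norm_eq_abs, abs_of_pos ha]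
    have hs2 : s ^ (2 * p) = t ^ (-1 : ℝ) := by
      rw [hs, ← Real.rpow_natCast, ← Real.rpow_mul htp.le]
      congr 1
      push_cast
      field_simp
    have hcast : ((2 * p : ℕ) : ℝ) = 2 * (p : ℝ) := by push_cast; ring
    rw [hcast, mul_pow, hs2] at h3
    have h6 : t ^ (-1 : ℝ) * t ^ (1 - k) = t ^ (-k) := by
      rw [← Real.rpow_add htp]
      congr 1
      ring
    have ht1' : 0 ≤ t ^ (-1 : ℝ) := Real.rpow_nonneg htp.le _
    have hpn : 0 ≤ (2 * (p : ℝ) + 1) * A.nmul ^ (2 * p) * ((b + η) ^ (2 * p) * t ^ (-1 : ℝ)) := by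
      have : 0 ≤ (b + η) ^ (2 * p) := by positivity
      positivity
    calc a * ‖pj A (2 * p) (w t + K f t) - pj A (2 * p) (w t + K g t)‖
        ≤ a * ((2 * (p : ℝ) + 1) * A.nmul ^ (2 * p) * ((b + η) ^ (2 * p) * t ^ (-1 : ℝ)) *
            ‖K f t - K g t‖) := mul_le_mul_of_nonneg_left h3 ha.le
      _ ≤ a * ((2 * (p : ℝ) + 1) * A.nmul ^ (2 * p) * ((b + η) ^ (2 * p) * t ^ (-1 : ℝ)) *
            (κ * N * t ^ (1 - k))) :=
          mul_le_mul_of_nonneg_left (mul_le_mul_of_nonneg_left h2 hpn) ha.le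
      _ = q * N * (t ^ (-1 : ℝ) * t ^ (1 - k)) := by
          rw [hqd, hc1]
          ring
      _ = q * N * t ^ (-k) := by rw [h6]
  -- `K 0 = 0`
  have hz : A.Cu t0 (fun _ => (0 : J)) := A.zero t0
  have hzb : ∀ t > t0, ‖(0 : J)‖ ≤ N0 * t ^ (-k) := by
    intro t ht
    rw [norm_zero]
    exact mul_nonneg hN00.le (Real.rpow_nonneg (ht00.trans ht).le _)
  have hK0 : ∀ t > t0, K (fun _ => (0 : J)) t = 0 := by
    intro t ht
    have h := hK.sub t0 k N0 (fun _ => (0 : J)) (fun _ => (0 : J)) ht0 (by linarith) hz hz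
      hzb hzb t ht
    simp only [sub_self] at h
    exact h
  -- `Θ` maps the ball to itself
  have hself : ∀ f, A.Cu t0 f → (∀ t > t0, ‖f t‖ ≤ N0 * t ^ (-k)) →
      A.Cu t0 (Θ f) ∧ ∀ t > t0, ‖Θ f t‖ ≤ N0 * t ^ (-k) := by
    intro f hf hfb
    constructor
    · rw [hΘ]
      have h1 := (hKb f N0 hf hfb).1
      exact A.add t0 _ _ (A.smul t0 a _ (cu_sub A
        ((poj J A (2 * p)).2 t0 _ (A.add t0 _ _ hw0 h1)) ((poj J A (2 * p)).2 t0 _ hw0))) hr0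
    · intro t ht
      have htp : 0 < t := ht00.trans ht
      have h1 := hdiff f (fun _ => 0) N0 hN00.le hf hfb hz hzb (fun s hs => by
        rw [sub_zero]
        exact hfb s hs) t ht
      have h2 : Θ (fun _ => 0) t = r t := by
        rw [hΘt, hK0 t ht, add_zero, sub_self, smul_zero, zero_add]
      rw [h2] at h1
      have h3 := hrb t (lt_of_le_of_lt ht01 ht)
      have h4 : 0 < t ^ (-k) := Real.rpow_pos_of_pos htp _
      have h5 : N1 * t ^ (-k) ≤ |N1| * t ^ (-k) :=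
        mul_le_mul_of_nonneg_right (le_abs_self N1) h4.le
      have h6 : ‖Θ f t‖ ≤ ‖Θ f t - r t‖ + ‖r t‖ := by
        have := norm_add_le (Θ f t - r t) (r t)
        rwa [sub_add_cancel] at this
      have h7 : q * N0 + |N1| ≤ N0 := by nlinarith
      calc ‖Θ f t‖ ≤ q * N0 * t ^ (-k) + |N1| * t ^ (-k) := by linarith
        _ = (q * N0 + |N1|) * t ^ (-k) := by ring
        _ ≤ N0 * t ^ (-k) := mul_le_mul_of_nonneg_right h7 h4.le
  obtain ⟨f, hf, hfb, hfix⟩ := fxj J A t0 k N0 q Θ ht0 (by linarith) hN00.le hq0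
    (by linarith) hself hdiff
  refine ⟨t0, ht01, N0, f, hf, hfb, ?_⟩
  intro t ht
  rw [← hΘt]
  exact (hfix t ht).symm

end Pool.Agent.BEN.H69
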